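import Pool.Agent.helper58.FI.SpecC

set_option autoImplicit false

namespace Pool.Agent.FI

open Pool.Agent.helper58.DC Pool.Agent.DI Pool.Agent.GR Pool.Agent.OB Pool.Agent.DR

theorem FOV_nz {G : Type} [Group G] {P N : Subgroup G} (hNP : N ≤ nz P) {n : G} (hn : n ∈ N)
    (x : G) : n * x * n⁻¹ ∈ cz P ↔ x ∈ cz P := by
  have h1 := Subgroup.mem_normalizer_iff.1 (hNP hn)
  rw [Subgroup.mem_centralizer_iff, Subgroup.mem_centralizer_iff]
  constructor
  · intro h y hy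
    have h2 := h (n * y * n⁻¹) ((h1 y).1 hy)
    have h3 : n * (y * x) * n⁻¹ = n * (x * y) * n⁻¹ := by
      have e1 : n * (y * x) * n⁻¹ = n * y * n⁻¹ * (n * x * n⁻¹) := by group
      have e2 : n * (x * y) * n⁻¹ = n * x * n⁻¹ * (n * y * n⁻¹) := by group
      rw [e1, e2, h2]
    exact mul_left_cancel (mul_right_cancel h3)
  · intro h y hy
    have h4 : n⁻¹ * y * n ∈ P := by
      rw [h1]
      have e1 : n * (n⁻¹ * y * n) * n⁻¹ = y := by group
      rw [e1]
      exact hy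
    have h2 := h (n⁻¹ * y * n) h4
    have e1 : y * (n * x * n⁻¹) = n * (n⁻¹ * y * n * x) * n⁻¹ := by group
    have e2 : n * x * n⁻¹ * y = n * (x * (n⁻¹ * y * n)) * n⁻¹ := by group
    rw [e1, e2, h2]

theorem FOV_conj {G : Type} [Group G] (g n x : G) :
    n * x * n⁻¹ ∈ conjugatesOf g ↔ x ∈ conjugatesOf g := by
  have h1 : IsConj x (n * x * n⁻¹) := isConj_iff.2 ⟨n, rfl⟩
  constructor
  · intro h
    exact IsConj.trans h h1.symm
  · intro h
    exact IsConj.trans h h1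

open Classical in
theorem FOV_cc {G : Type} [Group G] [Fintype G] (ψ z : G → ℂ) :
    cc ψ z = (∑ x, z x * ψ x) / ψ 1 := by
  unfold cc
  rw [finsum_eq_sum_of_fintype]

open Classical in
theorem FOV_omega {G : Type} [Group G] [Fintype G] (ψ : G → ℂ) (g : G) :
    omega ψ g = (∑ x, if x ∈ conjugatesOf g then ψ x else 0) / ψ 1 := by
  unfold omega
  rw [finsum_mem_def, finsum_eq_sum_of_fintype]
  congr 1

open Classical in
theorem FOV_key (hC5a : C5a_stmt) (p : ℕ) (M : Ideal (integralClosure ℤ ℂ)) (hM : Setup p M)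
    (G : Type) [Group G] [Finite G] (P N : Subgroup G) (hP : IsPGroup p P) (hPN : P ≤ N)
    (hNP : N ≤ nz P) (φ : G → ℂ) (hφ : φ ∈ IrrOn N) (ψ : G → ℂ) (hψ : ψ ∈ IrrOn (cz P)) (e : ℕ)
    (he : 0 < e) (hover : OverE (cz P) N φ ψ e) : Induces M φ ψ := by
  have : Fact p.Prime := ⟨hM.pr⟩
  have := Fintype.ofFinite G
  intro g
  have hz : ∀ l ∈ N, ∀ x, (if l * x * l⁻¹ ∈ conjugatesOf g ∧ l * x * l⁻¹ ∉ cz P then (1 : ℂ) else 0) =
      if x ∈ conjugatesOf g ∧ x ∉ cz P then 1 else 0 := by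
    intro l hl x
    simp only [FOV_conj, FOV_nz hNP hl]
  obtain ⟨c, hc, hc2⟩ := hC5a G p M hM.max hM.mem P N hPN hNP hP φ hφ
    (fun x => if x ∈ conjugatesOf g ∧ x ∉ cz P then 1 else 0) hz
    (fun x => by
      split_ifs
      · exact isIntegral_one
      · exact isIntegral_zero)
    (fun x hx => by
      rw [if_neg]
      exact fun h => h.2 hx)
  rw [sub_zero] at hc2
  refine ⟨c, hc, ?_⟩
  rw [← hc2]
  -- the function `z'`
  have hz' : ∀ l ∈ N, ∀ x, (if l * x * l⁻¹ ∈ conjugatesOf g ∧ l * x * l⁻¹ ∈ cz P then (1 : ℂ) else 0) =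
      if x ∈ conjugatesOf g ∧ x ∈ cz P then 1 else 0 := by
    intro l hl x
    simp only [FOV_conj, FOV_nz hNP hl]
  set z' : G → ℂ := fun x => if x ∈ conjugatesOf g ∧ x ∈ cz P then 1 else 0 with hz'def
  have h1 : omega φ g = cc φ (fun x => if x ∈ conjugatesOf g ∧ x ∉ cz P then 1 else 0) + cc φ z' := by
    rw [FOV_omega, FOV_cc, FOV_cc, ← add_div, ← Finset.sum_add_distrib]
    congr 1
    refine Finset.sum_congr rfl fun x _ => ?_
    simp only [hz'def]
    by_cases hx : x ∈ conjugatesOf g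
    · by_cases hk : x ∈ cz P
      · simp [hx, hk]
      · simp [hx, hk]
    · simp [hx]
  have h2 : omega ψ g = cc ψ z' := by
    rw [FOV_omega, FOV_cc]
    congr 1
    refine Finset.sum_congr rfl fun x _ => ?_
    simp only [hz'def]
    by_cases hx : x ∈ conjugatesOf g
    · by_cases hk : x ∈ cz P
      · simp [hx, hk]
      · simp [hx, hk, hψ.1 x hk]
    · simp [hx]
  have hO : {ψ' : G → ℂ | ∃ n ∈ N, ψ' = funMap (MulAut.conj n) ψ}.Finite := by
    have h3 : {ψ' : G → ℂ | ∃ n ∈ N, ψ' = funMap (MulAut.conj n) ψ} =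
        (fun n : G => funMap (MulAut.conj n) ψ) '' (N : Set G) := by
      ext ψ'
      simp only [Set.mem_ofPred_eq, Set.mem_image, SetLike.mem_coe]
      constructor
      · rintro ⟨n, hn, rfl⟩
        exact ⟨n, hn, rfl⟩
      · rintro ⟨n, hn, rfl⟩
        exact ⟨n, hn, rfl⟩
    rw [h3]
    exact (Set.toFinite _).image _
  set O := hO.toFinset with hOdef
  have hov : ∀ x ∈ cz P, φ x = e * ∑ ψ' ∈ O, ψ' x := by
    intro x hx
    rw [hover x hx, finsum_mem_eq_finite_toFinset_sum _ hO]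
  have hmemO : ∀ ψ' ∈ O, ∃ n ∈ N, ψ' = funMap (MulAut.conj n) ψ := by
    intro ψ' h
    rw [hOdef, Set.Finite.mem_toFinset] at h
    exact h
  have hval : ∀ (n x : G), funMap (MulAut.conj n) ψ x = ψ (n⁻¹ * x * n) := by
    intro n x
    unfold funMap
    rw [MulAut.conj_inv_apply]
  have hinner : ∀ ψ' ∈ O, ∑ x, z' x * ψ' x = ∑ x, z' x * ψ x := by
    intro ψ' h
    obtain ⟨n, hn, rfl⟩ := hmemO ψ' h
    refine Fintype.sum_equiv (MulAut.conj n⁻¹).toEquiv _ _ fun x => ?_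
    rw [hval]
    have e1 : (MulAut.conj n⁻¹).toEquiv x = n⁻¹ * x * n := by
      change n⁻¹ * x * (n⁻¹)⁻¹ = _
      rw [inv_inv]
    rw [e1]
    congr 1
    have h5 := hz' n⁻¹ (N.inv_mem hn) x
    rw [inv_inv] at h5
    simp only [hz'def]
    exact h5.symm
  have hone : ∀ ψ' ∈ O, ψ' 1 = ψ 1 := by
    intro ψ' h
    obtain ⟨n, hn, rfl⟩ := hmemO ψ' h
    rw [hval]
    congr 1
    group
  have hφ1 : φ 1 = (e * O.card : ℂ) * ψ 1 := by
    rw [hov 1 (one_mem _), Finset.sum_congr rfl hone, Finset.sum_const, nsmul_eq_mul, mul_assoc]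
  have hsum : ∑ x, z' x * φ x = (e * O.card : ℂ) * ∑ x, z' x * ψ x := by
    have e1 : ∀ x, z' x * φ x = (e : ℂ) * ∑ ψ' ∈ O, z' x * ψ' x := by
      intro x
      by_cases hx : x ∈ cz P
      · rw [hov x hx, Finset.mul_sum, Finset.mul_sum, Finset.mul_sum]
        refine Finset.sum_congr rfl fun ψ' _ => ?_
        ring
      · have e2 : z' x = 0 := by
          simp only [hz'def]
          rw [if_neg]
          exact fun h => hx h.2
        simp [e2]
    rw [Finset.sum_congr rfl fun x _ => e1 x, ← Finset.mul_sum, Finset.sum_comm,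
      Finset.sum_congr rfl hinner, Finset.sum_const, nsmul_eq_mul, mul_assoc]
  have hOne : O.Nonempty := by
    refine ⟨funMap (MulAut.conj 1) ψ, ?_⟩
    rw [hOdef, Set.Finite.mem_toFinset]
    exact ⟨1, one_mem _, rfl⟩
  have hne : (e * O.card : ℂ) ≠ 0 := by
    have h6 : (e * O.card : ℕ) ≠ 0 := Nat.mul_ne_zero he.ne' hOne.card_pos.ne'
    exact_mod_cast h6
  have h3 : cc φ z' = cc ψ z' := by
    rw [FOV_cc, FOV_cc, hsum, hφ1, mul_div_mul_left _ _ hne]
  rw [h1, h2, h3]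
  ring

theorem FOV (hC5a : C5a_stmt) (hIM : IM_stmt) : FOV_stmt := by
  intro p M hM G _ _ P N hP hPN _ hNP φ hφ ψ hψ e he hover χ
  have key := FOV_key hC5a p M hM G P N hP hPN hNP φ hφ ψ hψ e he hover
  constructor
  · intro h
    exact (hIM G M ψ φ χ).2.2.1 ((hIM G M φ ψ χ).2.1 key) h
  · intro h
    exact (hIM G M φ ψ χ).2.2.1 key h

end Pool.Agent.FI
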