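import Pool.Agent.helper95.FI.SpecM

set_option autoImplicit false

open Finset

noncomputable section

namespace Pool.Agent.FI

theorem FOU_lep : 1 < lep := by
  unfold lep
  rw [Real.lt_log_iff_exp_lt (by positivity)]
  have h1 := Real.exp_one_lt_d9
  have h2 : (0 : ℝ) ≤ √8 := Real.sqrt_nonneg _
  linarith

theorem FOU_cont (h c : ℝ) : Continuous (tn h c) := by
  unfold tn
  fun_prop

theorem FOU_left {h c t : ℝ} (hh : 0 < h) (h1 : c - h ≤ t) (h2 : t ≤ c) :
    tn h c t = (t - (c - h)) / h := by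
  unfold tn
  rw [abs_of_nonpos (by linarith)]
  have : 1 - -(t - c) / h = (t - (c - h)) / h := by
    field_simp
    ring
  rw [this]
  exact max_eq_right (div_nonneg (by linarith) hh.le)

theorem FOU_right {h c t : ℝ} (hh : 0 < h) (h1 : c ≤ t) (h2 : t ≤ c + h) :
    tn h c t = ((c + h) - t) / h := by
  unfold tn
  rw [abs_of_nonneg (by linarith)]
  have : 1 - (t - c) / h = ((c + h) - t) / h := by
    field_simp
    ring
  rw [this]
  exact max_eq_right (div_nonneg (by linarith) hh.le)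

theorem FOU_out {h c t : ℝ} (hh : 0 < h) (h1 : t ≤ c - h ∨ c + h ≤ t) : tn h c t = 0 := by
  unfold tn
  refine max_eq_left ?_
  have h2 : h ≤ |t - c| := by
    rcases h1 with h1 | h1
    · rw [abs_of_nonpos (by linarith)]
      linarith
    · rw [abs_of_nonneg (by linarith)]
      linarith
  have h3 : 1 ≤ |t - c| / h := by
    rw [le_div_iff₀ hh]
    linarith
  linarith

theorem FOU_nonneg (h c t : ℝ) : 0 ≤ tn h c t := le_max_left _ _

theorem FOU_le_one {h : ℝ} (hh : 0 < h) (c t : ℝ) : tn h c t ≤ 1 := by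
  unfold tn
  refine max_le zero_le_one ?_
  have : 0 ≤ |t - c| / h := div_nonneg (abs_nonneg _) hh.le
  linarith

/-- The first half of the integral. -/
theorem FOU_int1 {h c κ : ℝ} (hh : 0 < h) (hκ : κ ≠ 0) :
    ∫ t in (c - h)..c, (tn h c t : ℂ) * Complex.exp (-(κ * t) * Complex.I) =
      (1 / (h : ℂ)) * ((h : ℂ) * (Complex.I / κ) * Complex.exp (-(κ * c) * Complex.I) +
        Complex.exp (-(κ * c) * Complex.I) / κ ^ 2 -
        Complex.exp (-(κ * (c - h : ℝ)) * Complex.I) / κ ^ 2) := by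
  have hκc : (κ : ℂ) ≠ 0 := by exact_mod_cast hκ
  have hhc : (h : ℂ) ≠ 0 := by exact_mod_cast hh.ne'
  have h1 : ∫ t in (c - h)..c, (tn h c t : ℂ) * Complex.exp (-(κ * t) * Complex.I) =
      ∫ t in (c - h)..c, (((t - (c - h)) / h : ℝ) : ℂ) * Complex.exp (-(κ * t) * Complex.I) := by
    refine intervalIntegral.integral_congr ?_
    intro t ht
    rw [Set.uIcc_of_le (by linarith)] at ht
    show (tn h c t : ℂ) * _ = _
    rw [FOU_left hh ht.1 ht.2]
  rw [h1]
  have hd : ∀ t ∈ Set.uIcc (c - h) c, HasDerivAt (fun t : ℝ => (1 / (h : ℂ)) *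
      (((t : ℂ) - ((c - h : ℝ) : ℂ)) * (Complex.I / κ) * Complex.exp (-(κ * t) * Complex.I) +
        Complex.exp (-(κ * t) * Complex.I) / κ ^ 2))
      ((((t - (c - h)) / h : ℝ) : ℂ) * Complex.exp (-(κ * t) * Complex.I)) t := by
    intro t _
    have e1 : HasDerivAt (fun t : ℝ => Complex.exp (-((κ : ℂ) * (t : ℂ)) * Complex.I))
        (Complex.exp (-((κ : ℂ) * (t : ℂ)) * Complex.I) * (-((κ : ℂ) * 1) * Complex.I)) t :=
      ((((Complex.ofRealCLM.hasDerivAt (x := t)).const_mul (κ : ℂ)).neg).mul_const Complex.I).cexp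
    have e2 : HasDerivAt (fun t : ℝ => (t : ℂ) - ((c - h : ℝ) : ℂ)) 1 t :=
      (Complex.ofRealCLM.hasDerivAt (x := t)).sub_const _
    have e3 := (((e2.mul_const (Complex.I / (κ : ℂ))).mul e1).add (e1.div_const ((κ : ℂ) ^ 2))).const_mul
      (1 / (h : ℂ))
    refine e3.congr_deriv ?_
    push_cast
    field_simp
    have hI : Complex.I ^ 2 = -1 := Complex.I_sq
    linear_combination (-(κ * (t - (c - h))) : ℂ) * hI
  rw [intervalIntegral.integral_eq_sub_of_hasDerivAt hd
    (Continuous.intervalIntegrable (by fun_prop) _ _)]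
  push_cast
  ring

/-- The second half of the integral. -/
theorem FOU_int2 {h c κ : ℝ} (hh : 0 < h) (hκ : κ ≠ 0) :
    ∫ t in c..(c + h), (tn h c t : ℂ) * Complex.exp (-(κ * t) * Complex.I) =
      (1 / (h : ℂ)) * (-((h : ℂ) * (Complex.I / κ) * Complex.exp (-(κ * c) * Complex.I)) +
        Complex.exp (-(κ * c) * Complex.I) / κ ^ 2 -
        Complex.exp (-(κ * (c + h : ℝ)) * Complex.I) / κ ^ 2) := by
  have hκc : (κ : ℂ) ≠ 0 := by exact_mod_cast hκ
  have hhc : (h : ℂ) ≠ 0 := by exact_mod_cast hh.ne'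
  have h1 : ∫ t in c..(c + h), (tn h c t : ℂ) * Complex.exp (-(κ * t) * Complex.I) =
      ∫ t in c..(c + h), ((((c + h) - t) / h : ℝ) : ℂ) * Complex.exp (-(κ * t) * Complex.I) := by
    refine intervalIntegral.integral_congr ?_
    intro t ht
    rw [Set.uIcc_of_le (by linarith)] at ht
    show (tn h c t : ℂ) * _ = _
    rw [FOU_right hh ht.1 ht.2]
  rw [h1]
  have hd : ∀ t ∈ Set.uIcc c (c + h), HasDerivAt (fun t : ℝ => -((1 / (h : ℂ)) *
      (((t : ℂ) - ((c + h : ℝ) : ℂ)) * (Complex.I / κ) * Complex.exp (-(κ * t) * Complex.I) +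
        Complex.exp (-(κ * t) * Complex.I) / κ ^ 2)))
      (((((c + h) - t) / h : ℝ) : ℂ) * Complex.exp (-(κ * t) * Complex.I)) t := by
    intro t _
    have e1 : HasDerivAt (fun t : ℝ => Complex.exp (-((κ : ℂ) * (t : ℂ)) * Complex.I))
        (Complex.exp (-((κ : ℂ) * (t : ℂ)) * Complex.I) * (-((κ : ℂ) * 1) * Complex.I)) t :=
      ((((Complex.ofRealCLM.hasDerivAt (x := t)).const_mul (κ : ℂ)).neg).mul_const Complex.I).cexp
    have e2 : HasDerivAt (fun t : ℝ => (t : ℂ) - ((c + h : ℝ) : ℂ)) 1 t :=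
      (Complex.ofRealCLM.hasDerivAt (x := t)).sub_const _
    have e3 := ((((e2.mul_const (Complex.I / (κ : ℂ))).mul e1).add (e1.div_const ((κ : ℂ) ^ 2))).const_mul
      (1 / (h : ℂ))).neg
    refine e3.congr_deriv ?_
    push_cast
    field_simp
    have hI : Complex.I ^ 2 = -1 := Complex.I_sq
    linear_combination (κ * (t - (c + h)) : ℂ) * hI
  rw [intervalIntegral.integral_eq_sub_of_hasDerivAt hd
    (Continuous.intervalIntegrable (by fun_prop) _ _)]
  push_cast
  ring

theorem FOU_ii (h c κ a b : ℝ) : IntervalIntegrable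
    (fun t : ℝ => (tn h c t : ℂ) * Complex.exp (-(κ * t) * Complex.I)) MeasureTheory.volume a b := by
  have := FOU_cont h c
  exact Continuous.intervalIntegrable (by fun_prop) _ _

theorem FOU_norm_exp (x : ℝ) : ‖Complex.exp (-(x : ℂ) * Complex.I)‖ = 1 := by
  have := Complex.norm_exp_ofReal_mul_I (-x)
  rwa [Complex.ofReal_neg] at this

theorem FOU_ck {h c κ : ℝ} (hh : 0 < h) (hκ : κ ≠ 0) : ‖ck h c κ‖ ≤ 2 / (lep * h * κ ^ 2) := by
  have hlep := FOU_lep
  have hκc : (κ : ℂ) ≠ 0 := by exact_mod_cast hκ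
  have hI : ∫ t in (c - h)..(c + h), (tn h c t : ℂ) * Complex.exp (-(κ * t) * Complex.I) =
      (1 / ((h : ℂ) * κ ^ 2)) * (2 * Complex.exp (-(κ * c) * Complex.I) -
        Complex.exp (-(κ * (c - h : ℝ)) * Complex.I) - Complex.exp (-(κ * (c + h : ℝ)) * Complex.I)) := by
    rw [← intervalIntegral.integral_add_adjacent_intervals (FOU_ii h c κ (c - h) c)
      (FOU_ii h c κ c (c + h)), FOU_int1 hh hκ, FOU_int2 hh hκ]
    have hhc : (h : ℂ) ≠ 0 := by exact_mod_cast hh.ne'
    field_simp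
    ring
  unfold ck
  rw [hI, norm_mul, norm_mul]
  have n1 : ‖(1 / (2 * lep : ℂ))‖ = 1 / (2 * lep) := by
    rw [norm_div, norm_one, norm_mul, Complex.norm_real, Real.norm_of_nonneg (by linarith)]
    simp
  have n2 : ‖(1 / ((h : ℂ) * κ ^ 2))‖ = 1 / (h * κ ^ 2) := by
    rw [norm_div, norm_one, norm_mul, norm_pow, Complex.norm_real, Complex.norm_real,
      Real.norm_of_nonneg hh.le, Real.norm_eq_abs, sq_abs]
  have e1 : ‖Complex.exp (-(κ * c) * Complex.I)‖ = 1 := by
    have := FOU_norm_exp (κ * c)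
    push_cast at this
    exact this
  have e2 : ‖Complex.exp (-(κ * (c - h : ℝ)) * Complex.I)‖ = 1 := by
    have := FOU_norm_exp (κ * (c - h))
    push_cast at this ⊢
    exact this
  have e3 : ‖Complex.exp (-(κ * (c + h : ℝ)) * Complex.I)‖ = 1 := by
    have := FOU_norm_exp (κ * (c + h))
    push_cast at this ⊢
    exact this
  have n3 : ‖2 * Complex.exp (-(κ * c) * Complex.I) -
        Complex.exp (-(κ * (c - h : ℝ)) * Complex.I) - Complex.exp (-(κ * (c + h : ℝ)) * Complex.I)‖ ≤ 4 := by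
    refine (norm_sub_le _ _).trans ?_
    rw [e3]
    have := norm_sub_le (2 * Complex.exp (-(κ * c) * Complex.I))
      (Complex.exp (-(κ * (c - h : ℝ)) * Complex.I))
    rw [e2, norm_mul, e1] at this
    have h2 : ‖(2 : ℂ)‖ = 2 := by simp
    rw [h2] at this
    linarith
  rw [n1, n2]
  have hpos : 0 < h * κ ^ 2 := by positivity
  calc 1 / (2 * lep) * (1 / (h * κ ^ 2) * _) ≤ 1 / (2 * lep) * (1 / (h * κ ^ 2) * 4) := by
        gcongr
    _ = 2 / (lep * h * κ ^ 2) := by
        field_simp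
        ring

theorem FOU_ck_le {h c : ℝ} (hh : 0 < h) (κ : ℝ) : ‖ck h c κ‖ ≤ h := by
  have hlep := FOU_lep
  unfold ck
  rw [norm_mul]
  have n1 : ‖(1 / (2 * lep : ℂ))‖ = 1 / (2 * lep) := by
    rw [norm_div, norm_one, norm_mul, Complex.norm_real, Real.norm_of_nonneg (by linarith)]
    simp
  have n2 : ‖∫ t in (c - h)..(c + h), (tn h c t : ℂ) * Complex.exp (-(κ * t) * Complex.I)‖ ≤
      1 * |(c + h) - (c - h)| := by
    refine intervalIntegral.norm_integral_le_of_norm_le_const ?_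
    intro t _
    have e1 : ‖Complex.exp (-(κ * t) * Complex.I)‖ = 1 := by
      have := FOU_norm_exp (κ * t)
      push_cast at this
      exact this
    rw [norm_mul, e1, mul_one, Complex.norm_real, Real.norm_of_nonneg (FOU_nonneg h c t)]
    exact FOU_le_one hh c t
  have e4 : |(c + h) - (c - h)| = 2 * h := by
    rw [abs_of_nonneg (by linarith)]
    ring
  rw [e4] at n2
  rw [n1]
  calc 1 / (2 * lep) * _ ≤ 1 / (2 * lep) * (1 * (2 * h)) := by gcongr
    _ = h / lep := by
        field_simp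
    _ ≤ h := by
        rw [div_le_iff₀ (by linarith)]
        nlinarith

theorem FOU_ck_zero {h c : ℝ} (hh : 0 < h) : ck h c 0 = (h / (2 * lep) : ℂ) := by
  have hlep := FOU_lep
  have hhc : (h : ℂ) ≠ 0 := by exact_mod_cast hh.ne'
  unfold ck
  have h1 : ∫ t in (c - h)..(c + h), (tn h c t : ℂ) * Complex.exp (-(((0 : ℝ) : ℂ) * t) * Complex.I) =
      (h : ℂ) := by
    have h2 : (∫ t in (c - h)..(c + h), (tn h c t : ℂ) * Complex.exp (-(((0 : ℝ) : ℂ) * t) * Complex.I)) =
        ∫ t in (c - h)..(c + h), (tn h c t : ℂ) := by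
      refine intervalIntegral.integral_congr ?_
      intro t _
      simp
    rw [h2, intervalIntegral.integral_ofReal]
    have hc' := FOU_cont h c
    rw [← intervalIntegral.integral_add_adjacent_intervals (b := c)
      (Continuous.intervalIntegrable hc' _ _) (Continuous.intervalIntegrable hc' _ _)]
    have i1 : ∫ t in (c - h)..c, tn h c t = h / 2 := by
      have : ∫ t in (c - h)..c, tn h c t = ∫ t in (c - h)..c, (t - (c - h)) / h := by
        refine intervalIntegral.integral_congr ?_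
        intro t ht
        rw [Set.uIcc_of_le (by linarith)] at ht
        exact FOU_left hh ht.1 ht.2
      rw [this]
      have hd : ∀ t ∈ Set.uIcc (c - h) c, HasDerivAt (fun t : ℝ => (t - (c - h)) ^ 2 / (2 * h))
          ((t - (c - h)) / h) t := by
        intro t _
        have := (((hasDerivAt_id t).sub_const (c - h)).pow 2).div_const (2 * h)
        refine this.congr_deriv ?_
        simp
        field_simp
      rw [intervalIntegral.integral_eq_sub_of_hasDerivAt hd
        (Continuous.intervalIntegrable (by fun_prop) _ _)]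
      field_simp
      ring
    have i2 : ∫ t in c..(c + h), tn h c t = h / 2 := by
      have : ∫ t in c..(c + h), tn h c t = ∫ t in c..(c + h), ((c + h) - t) / h := by
        refine intervalIntegral.integral_congr ?_
        intro t ht
        rw [Set.uIcc_of_le (by linarith)] at ht
        exact FOU_right hh ht.1 ht.2
      rw [this]
      have hd : ∀ t ∈ Set.uIcc c (c + h), HasDerivAt (fun t : ℝ => -((t - (c + h)) ^ 2 / (2 * h)))
          (((c + h) - t) / h) t := by
        intro t _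
        have := ((((hasDerivAt_id t).sub_const (c + h)).pow 2).div_const (2 * h)).neg
        refine this.congr_deriv ?_
        simp
        field_simp
        ring
      rw [intervalIntegral.integral_eq_sub_of_hasDerivAt hd
        (Continuous.intervalIntegrable (by fun_prop) _ _)]
      field_simp
      ring
    rw [i1, i2]
    push_cast
    ring
  rw [h1]
  ring

/-- Symmetric partial sums. -/
theorem FOU_sym (a : ℤ → ℂ) (R : ℕ) : ∑ m ∈ Icc (-((R + 1 : ℕ) : ℤ)) ((R + 1 : ℕ) : ℤ), a m =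
    (∑ m ∈ Icc (-(R : ℤ)) R, a m) + (a ((R : ℤ) + 1) + a (-((R : ℤ) + 1))) := by
  have h1 : Icc (-((R + 1 : ℕ) : ℤ)) ((R + 1 : ℕ) : ℤ) =
      insert ((R : ℤ) + 1) (insert (-((R : ℤ) + 1)) (Icc (-(R : ℤ)) R)) := by
    ext m
    simp only [mem_insert, mem_Icc]
    push_cast
    omega
  rw [h1, sum_insert, sum_insert]
  · ring
  · simp only [mem_Icc]
    omega
  · simp only [mem_insert, mem_Icc]
    omega

theorem FOU_tail (a : ℤ → ℂ) (S : ℂ) (B : ℝ) (hB : 0 ≤ B) (hS : HasSum a S)
    (ha : ∀ m : ℤ, 2 ≤ |m| → ‖a m‖ ≤ B / (m : ℝ) ^ 2) (K : ℕ) (hK : 1 ≤ K) :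
    ‖S - ∑ m ∈ Icc (-(K : ℤ)) K, a m‖ ≤ 2 * B / K := by
  have hKR : (0 : ℝ) < K := by exact_mod_cast hK
  have key : ∀ R : ℕ, K ≤ R → ‖(∑ m ∈ Icc (-(R : ℤ)) R, a m) - ∑ m ∈ Icc (-(K : ℤ)) K, a m‖ ≤
      2 * B * (1 / K - 1 / R) := by
    intro R hR
    induction R, hR using Nat.le_induction with
    | base => simp
    | succ R hR ih =>
      have hR0 : (0 : ℝ) < R := by
        have : 0 < R := by omega
        exact_mod_cast this
      rw [FOU_sym]
      have e : (∑ m ∈ Icc (-(R : ℤ)) R, a m) + (a ((R : ℤ) + 1) + a (-((R : ℤ) + 1))) -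
          ∑ m ∈ Icc (-(K : ℤ)) K, a m = ((∑ m ∈ Icc (-(R : ℤ)) R, a m) - ∑ m ∈ Icc (-(K : ℤ)) K, a m) +
            (a ((R : ℤ) + 1) + a (-((R : ℤ) + 1))) := by ring
      rw [e]
      have b1 := ha ((R : ℤ) + 1) (by rw [abs_of_nonneg (by omega)]; omega)
      have b2 := ha (-((R : ℤ) + 1)) (by rw [abs_neg, abs_of_nonneg (by omega)]; omega)
      push_cast at b1 b2
      have hsq' : (-((R : ℝ) + 1)) ^ 2 = ((R : ℝ) + 1) ^ 2 := by ring
      rw [hsq'] at b2
      have hle : B / ((R : ℝ) + 1) ^ 2 ≤ B * (1 / R - 1 / ((R : ℝ) + 1)) := by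
        have : 1 / ((R : ℝ) + 1) ^ 2 ≤ 1 / R - 1 / ((R : ℝ) + 1) := by
          have e2 : 1 / (R : ℝ) - 1 / ((R : ℝ) + 1) = 1 / (R * ((R : ℝ) + 1)) := by
            field_simp
            ring
          rw [e2]
          refine one_div_le_one_div_of_le (by positivity) ?_
          nlinarith
        calc B / ((R : ℝ) + 1) ^ 2 = B * (1 / ((R : ℝ) + 1) ^ 2) := by ring
          _ ≤ _ := by gcongr
      calc ‖((∑ m ∈ Icc (-(R : ℤ)) R, a m) - ∑ m ∈ Icc (-(K : ℤ)) K, a m) +
            (a ((R : ℤ) + 1) + a (-((R : ℤ) + 1)))‖ ≤ _ := norm_add_le _ _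
        _ ≤ 2 * B * (1 / K - 1 / R) + (‖a ((R : ℤ) + 1)‖ + ‖a (-((R : ℤ) + 1))‖) := by
            gcongr
            exact norm_add_le _ _
        _ ≤ 2 * B * (1 / K - 1 / R) + (B * (1 / R - 1 / ((R : ℝ) + 1)) +
            B * (1 / R - 1 / ((R : ℝ) + 1))) := by
            gcongr
            · exact b1.trans hle
            · exact b2.trans hle
        _ = 2 * B * (1 / K - 1 / ((R + 1 : ℕ) : ℝ)) := by
            push_cast
            ring
  have hmono : Monotone (fun R : ℕ => Icc (-(R : ℤ)) (R : ℤ)) := by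
    intro R R' hRR
    refine Icc_subset_Icc ?_ ?_
    · have : (R : ℤ) ≤ R' := by exact_mod_cast hRR
      omega
    · exact_mod_cast hRR
  have htend : Filter.Tendsto (fun R : ℕ => ∑ m ∈ Icc (-(R : ℤ)) (R : ℤ), a m) Filter.atTop (nhds S) :=
    hS.comp (Filter.tendsto_atTop_finset_of_monotone hmono (fun m => ⟨m.natAbs, by
      rw [mem_Icc]
      omega⟩))
  have htend2 := (htend.sub_const (∑ m ∈ Icc (-(K : ℤ)) K, a m)).norm
  refine le_of_tendsto htend2 ?_
  filter_upwards [Filter.eventually_ge_atTop K] with R hR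
  refine (key R hR).trans ?_
  have : 0 ≤ 2 * B * (1 / (R : ℝ)) := by positivity
  calc 2 * B * (1 / K - 1 / R) = 2 * B / K - 2 * B * (1 / (R : ℝ)) := by ring
    _ ≤ 2 * B / K := by linarith

theorem FOU_fr {α : ℝ} (h0 : 0 ≤ α) (h1 : α < 2 * Real.pi) {m : ℤ} (hm : 2 ≤ |m|) :
    fr α m ≠ 0 ∧ Real.pi ^ 2 * (m : ℝ) ^ 2 / (4 * lep ^ 2) ≤ (fr α m) ^ 2 := by
  have hlep := FOU_lep
  have hpi := Real.pi_pos
  have hab : Real.pi * |(m : ℝ)| ≤ |α + 2 * Real.pi * m| := by
    have hm' : (2 : ℝ) ≤ |(m : ℝ)| := by exact_mod_cast hm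
    rcases le_or_gt 0 m with h | h
    · have hm0 : (0 : ℝ) ≤ m := by exact_mod_cast h
      rw [abs_of_nonneg hm0] at hm' ⊢
      rw [abs_of_nonneg (by positivity)]
      nlinarith
    · have hm0 : (m : ℝ) < 0 := by exact_mod_cast h
      rw [abs_of_neg hm0] at hm' ⊢
      rw [abs_of_nonpos (by nlinarith)]
      nlinarith
  have hsq : Real.pi ^ 2 * (m : ℝ) ^ 2 ≤ (α + 2 * Real.pi * m) ^ 2 := by
    have h2 : 0 ≤ Real.pi * |(m : ℝ)| := by positivity
    have h3 := pow_le_pow_left₀ h2 hab 2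
    rw [mul_pow, sq_abs, sq_abs] at h3
    exact h3
  have hfr : (fr α m) ^ 2 = (α + 2 * Real.pi * m) ^ 2 / (4 * lep ^ 2) := by
    unfold fr
    rw [div_pow]
    ring
  have hm2 : (0 : ℝ) < (m : ℝ) ^ 2 := by
    have : (m : ℝ) ≠ 0 := by
      intro h
      have : m = 0 := by exact_mod_cast h
      subst this
      simp at hm
    positivity
  have hle : Real.pi ^ 2 * (m : ℝ) ^ 2 / (4 * lep ^ 2) ≤ (fr α m) ^ 2 := by
    rw [hfr]
    gcongr
  refine ⟨?_, hle⟩
  intro h
  rw [h] at hle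
  have : 0 < Real.pi ^ 2 * (m : ℝ) ^ 2 / (4 * lep ^ 2) := by positivity
  norm_num at hle
  linarith

theorem FOU_bd {h c α : ℝ} (hh : 0 < h) (h0 : 0 ≤ α) (h1 : α < 2 * Real.pi) {m : ℤ} (hm : 2 ≤ |m|) :
    ‖ck h c (fr α m)‖ ≤ (8 * lep / h) / (m : ℝ) ^ 2 := by
  have hlep := FOU_lep
  obtain ⟨hne, hle⟩ := FOU_fr h0 h1 hm
  refine (FOU_ck hh hne).trans ?_
  have hm2 : (0 : ℝ) < (m : ℝ) ^ 2 := by
    have : (m : ℝ) ≠ 0 := by
      intro h
      have : m = 0 := by exact_mod_cast h
      subst this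
      simp at hm
    positivity
  have hpi : (1 : ℝ) ≤ Real.pi ^ 2 := by
    have := Real.pi_gt_three
    nlinarith
  have hle' : (m : ℝ) ^ 2 / (4 * lep ^ 2) ≤ (fr α m) ^ 2 := by
    refine le_trans ?_ hle
    gcongr
    nlinarith
  have hpos : 0 < (m : ℝ) ^ 2 / (4 * lep ^ 2) := by positivity
  calc 2 / (lep * h * (fr α m) ^ 2) ≤ 2 / (lep * h * ((m : ℝ) ^ 2 / (4 * lep ^ 2))) := by
        gcongr
    _ = (8 * lep / h) / (m : ℝ) ^ 2 := by
        field_simp
        ring

/-- The function on the circle. -/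
def FOU_f (h c α : ℝ) (y : ℝ) : ℂ := (tn h c y : ℂ) * Complex.exp (-(α * y / (2 * lep)) * Complex.I)

theorem FOU_sum {h c α : ℝ} (hh : 0 < h) (hc : h ≤ c) (hch : c + h ≤ 1) (h0 : 0 ≤ α)
    (h1 : α < 2 * Real.pi) {y : ℝ} (hy : |y| ≤ lep) :
    HasSum (fun m : ℤ => ck h c (fr α m) * Complex.exp (fr α m * y * Complex.I)) (tn h c y : ℂ) := by
  have hlep := FOU_lep
  have hT : Fact (0 < 2 * lep) := ⟨by linarith⟩
  have hlc : (lep : ℂ) ≠ 0 := by
    have : lep ≠ 0 := by linarith
    exact_mod_cast this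
  have hcont : Continuous (FOU_f h c α) := by
    have := FOU_cont h c
    unfold FOU_f
    fun_prop
  have hz1 : FOU_f h c α (-lep) = 0 := by
    unfold FOU_f
    rw [FOU_out hh (Or.inl (by linarith))]
    simp
  have hz2 : FOU_f h c α lep = 0 := by
    unfold FOU_f
    rw [FOU_out hh (Or.inr (by linarith))]
    simp
  have hadd : -lep + 2 * lep = lep := by ring
  have hFc : Continuous (AddCircle.liftIco (2 * lep) (-lep) (FOU_f h c α)) := by
    refine AddCircle.liftIco_continuous ?_ hcont.continuousOn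
    rw [hadd, hz1, hz2]
  let F : C(AddCircle (2 * lep), ℂ) := ⟨AddCircle.liftIco (2 * lep) (-lep) (FOU_f h c α), hFc⟩
  have hFv : ∀ x : ℝ, x ∈ Set.Ico (-lep) lep → F (x : AddCircle (2 * lep)) = FOU_f h c α x := by
    intro x hx
    have hx' : x ∈ Set.Ico (-lep) (-lep + 2 * lep) := by
      rw [hadd]
      exact hx
    exact AddCircle.liftIco_coe_apply (f := FOU_f h c α) hx'
  have hFl : F ((lep : ℝ) : AddCircle (2 * lep)) = FOU_f h c α lep := by
    have e : ((lep : ℝ) : AddCircle (2 * lep)) = ((-lep : ℝ) : AddCircle (2 * lep)) := by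
      have := AddCircle.coe_add_period (2 * lep) (-lep)
      rw [hadd] at this
      exact this
    rw [e, hFv (-lep) ⟨le_rfl, by linarith⟩, hz1, hz2]
  have hcoef : ∀ m : ℤ, fourierCoeff F m = ck h c (fr α m) := by
    intro m
    rw [fourierCoeff_eq_intervalIntegral F m (-lep), hadd]
    have i1 : ∫ x in (-lep)..lep, fourier (-m) (x : AddCircle (2 * lep)) • F (x : AddCircle (2 * lep)) =
        ∫ x in (-lep)..lep, (tn h c x : ℂ) * Complex.exp (-(fr α m * x) * Complex.I) := by
      refine intervalIntegral.integral_congr_Ioo_of_le (by linarith) ?_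
      intro x hx
      show fourier (-m) (x : AddCircle (2 * lep)) • F (x : AddCircle (2 * lep)) =
        (tn h c x : ℂ) * Complex.exp (-(fr α m * x) * Complex.I)
      rw [hFv x ⟨hx.1.le, hx.2⟩, fourier_coe_apply]
      unfold FOU_f fr
      rw [smul_eq_mul]
      rw [show ∀ a b c : ℂ, a * (b * c) = b * (a * c) from fun a b c => by ring, ← Complex.exp_add]
      refine congrArg (fun z => (tn h c x : ℂ) * Complex.exp z) ?_
      push_cast
      field_simp
      ring
    have i2 : ∫ x in (-lep)..lep, (tn h c x : ℂ) * Complex.exp (-(fr α m * x) * Complex.I) =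
        ∫ x in (c - h)..(c + h), (tn h c x : ℂ) * Complex.exp (-(fr α m * x) * Complex.I) := by
      rw [← intervalIntegral.integral_add_adjacent_intervals (FOU_ii h c (fr α m) (-lep) (c - h))
        (FOU_ii h c (fr α m) (c - h) lep),
        ← intervalIntegral.integral_add_adjacent_intervals (FOU_ii h c (fr α m) (c - h) (c + h))
        (FOU_ii h c (fr α m) (c + h) lep)]
      have z1 : ∫ x in (-lep)..(c - h), (tn h c x : ℂ) * Complex.exp (-(fr α m * x) * Complex.I) = 0 := by
        rw [intervalIntegral.integral_congr (g := fun _ => (0 : ℂ))]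
        · simp
        · intro x hx
          rw [Set.uIcc_of_le (by linarith)] at hx
          show (tn h c x : ℂ) * _ = 0
          rw [FOU_out hh (Or.inl hx.2)]
          simp
      have z2 : ∫ x in (c + h)..lep, (tn h c x : ℂ) * Complex.exp (-(fr α m * x) * Complex.I) = 0 := by
        rw [intervalIntegral.integral_congr (g := fun _ => (0 : ℂ))]
        · simp
        · intro x hx
          rw [Set.uIcc_of_le (by linarith)] at hx
          show (tn h c x : ℂ) * _ = 0
          rw [FOU_out hh (Or.inr hx.1)]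
          simp
      rw [z1, z2]
      ring
    rw [i1, i2]
    unfold ck
    rw [Complex.real_smul]
    push_cast
    rfl
  have hsum : Summable (fourierCoeff F) := by
    have hg : Summable (fun m : ℤ => (8 * lep / h) * (1 / (m : ℝ) ^ 2)) :=
      (Real.summable_one_div_int_pow.2 one_lt_two).mul_left _
    refine Summable.of_norm_bounded_eventually hg ?_
    have hfin : {m : ℤ | ¬ 2 ≤ |m|}.Finite := by
      refine (Set.finite_Icc (-1 : ℤ) 1).subset ?_
      intro m hm
      have hm' : |m| < 2 := not_le.1 hm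
      rw [abs_lt] at hm'
      exact ⟨by omega, by omega⟩
    have hev : ∀ᶠ m : ℤ in Filter.cofinite, 2 ≤ |m| := hfin
    filter_upwards [hev] with m hm
    rw [hcoef m]
    refine (FOU_bd hh h0 h1 hm).trans (le_of_eq ?_)
    ring
  have hHS := has_pointwise_sum_fourier_series_of_summable hsum ((y : ℝ) : AddCircle (2 * lep))
  have hFy : F ((y : ℝ) : AddCircle (2 * lep)) = FOU_f h c α y := by
    rw [abs_le] at hy
    rcases eq_or_lt_of_le hy.2 with h2 | h2
    · rw [h2]
      exact hFl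
    · exact hFv y ⟨hy.1, h2⟩
  rw [hFy] at hHS
  have hHS2 := hHS.mul_right (Complex.exp (α * y / (2 * lep) * Complex.I))
  have e1 : FOU_f h c α y * Complex.exp (α * y / (2 * lep) * Complex.I) = (tn h c y : ℂ) := by
    unfold FOU_f
    rw [mul_assoc, ← Complex.exp_add]
    have : -((α : ℂ) * y / (2 * lep)) * Complex.I + α * y / (2 * lep) * Complex.I = 0 := by ring
    rw [this, Complex.exp_zero, mul_one]
  rw [e1] at hHS2
  refine hHS2.congr_fun ?_
  intro m
  rw [hcoef m, fourier_coe_apply, smul_eq_mul, mul_assoc (ck h c (fr α m)), ← Complex.exp_add]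
  refine congrArg (fun z => ck h c (fr α m) * Complex.exp z) ?_
  unfold fr
  push_cast
  field_simp
  ring

theorem FOU : FOU_stmt := by
  have hlep := FOU_lep
  refine ⟨16 * lep, by linarith, ?_⟩
  intro h c hh hc hch
  refine ⟨fun κ => FOU_ck_le hh κ, FOU_ck_zero hh, ?_⟩
  intro α h0 h1 K hK y hy
  have hKR : (0 : ℝ) < K := by exact_mod_cast hK
  have hb := FOU_tail (fun m : ℤ => ck h c (fr α m) * Complex.exp (fr α m * y * Complex.I))
    (tn h c y : ℂ) (8 * lep / h) (by positivity) (FOU_sum hh hc hch h0 h1 hy) (by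
      intro m hm
      have e1 : ‖Complex.exp (fr α m * y * Complex.I)‖ = 1 := by
        have := Complex.norm_exp_ofReal_mul_I (fr α m * y)
        push_cast at this
        exact this
      rw [norm_mul, e1, mul_one]
      exact FOU_bd hh h0 h1 hm) K hK
  refine hb.trans (le_of_eq ?_)
  field_simp
  ring

end Pool.Agent.FI
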