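import Pool.Agent.helper40.FI.SpecLA

set_option autoImplicit false

namespace Pool.Agent.FI

open Finset

open Pool.Agent.GR

/-- the key computation: `|κ|` -/
theorem LEP_sq {p : ℕ} {M : Ideal (integralClosure ℤ ℂ)} {D : Type} [CommGroup D] [Fintype D]
    {X : Type} [Fintype X] {Z : Subgroup D} {I : Subgroup (MulAut D)} {β d : X → D → ℂ} {n : D → ℤ}
    (h : LD p M Z I β d n) {u : D} (hu : u ∉ Z) :
    ∑ χ, β χ u * (starRingEnd ℂ) (β χ u) = (n u : ℂ) ^ 2 * (Nat.card D : ℂ) := by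
  rw [← h.h4b u hu, Finset.mul_sum]
  refine Finset.sum_congr rfl fun χ _ => ?_
  rw [h.h3a χ u hu, map_mul, map_intCast]
  ring

theorem LEP_zu {p : ℕ} {M : Ideal (integralClosure ℤ ℂ)} {D : Type} [CommGroup D] [Fintype D]
    {X : Type} [Fintype X] {Z : Subgroup D} {I : Subgroup (MulAut D)} {β d : X → D → ℂ} {n : D → ℤ}
    (h : LD p M Z I β d n) {z u : D} (hz : z ∈ Z) (hu : u ∉ Z) : n (z * u) ^ 2 = n u ^ 2 := by
  have hzu : z * u ∉ Z := fun h' => hu ((Z.mul_mem_cancel_left hz).1 h')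
  have h1 := LEP_sq h hzu
  have h2 := LEP_sq h hu
  have h3 : ∑ χ, β χ (z * u) * (starRingEnd ℂ) (β χ (z * u)) =
      ∑ χ, β χ u * (starRingEnd ℂ) (β χ u) := by
    refine Finset.sum_congr rfl fun χ _ => ?_
    obtain ⟨v, hv⟩ := h.h5 χ
    have h4 := hv ⟨z, hz⟩ u
    have h5 : β χ (z * u) = lv v ⟨z, hz⟩ * β χ u := h4
    rw [h5, map_mul, star_lv, lv_inv]
    have h6 := lv_ne v ⟨z, hz⟩
    field_simp
  rw [h1, h2] at h3
  have hD : (Nat.card D : ℂ) ≠ 0 := by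
    exact_mod_cast Nat.card_pos.ne'
  have h4 := mul_right_cancel₀ hD h3
  exact_mod_cast h4

theorem LEP_dvd {p : ℕ} {M : Ideal (integralClosure ℤ ℂ)} {D : Type} [CommGroup D] [Fintype D]
    {X : Type} [Fintype X] {Z : Subgroup D} {I : Subgroup (MulAut D)} {β d : X → D → ℂ} {n : D → ℤ}
    (hLNU : LNU_stmt) (hLCO : LCO_stmt) (h : LD p M Z I β d n) {u u₀ : D} (hu : u ∉ Z)
    (hu₀ : u₀ ∉ Z) : (p : ℤ) ∣ n u - n u₀ ∨ (p : ℤ) ∣ n u + n u₀ := by
  obtain ⟨κ, hκ, hκ2⟩ := hLNU p M D X Z I β d n h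
  have h1 := (hLCO p M D κ h.set h.pg hκ).2.2
  have h2 := InM.sub h.set (h1 u) (h1 u₀)
  have h3 : κ u - κ 1 - (κ u₀ - κ 1) = (((Nat.card I : ℤ) * ((n u - n u₀) * (n u + n u₀)) : ℤ) : ℂ) := by
    rw [hκ2 u hu, hκ2 u₀ hu₀]
    push_cast
    ring
  rw [h3, InM.intCast h.set] at h2
  have hp : Prime (p : ℤ) := Nat.prime_iff_prime_int.1 h.set.pr
  rcases hp.dvd_or_dvd h2 with h4 | h4
  · exact absurd (Int.natCast_dvd_natCast.1 h4) h.cop
  · exact hp.dvd_or_dvd h4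

theorem LEP (hLNU : LNU_stmt) (hLCO : LCO_stmt) : LEP_stmt := by
  classical
  intro p M D _ _ X _ Z I β d n h
  obtain ⟨u₀, hu₀⟩ : ∃ u₀, u₀ ∉ Z := by
    by_contra hcon
    push Not at hcon
    exact h.ne ((Subgroup.eq_top_iff' Z).2 hcon)
  have hp : Prime (p : ℤ) := Nat.prime_iff_prime_int.1 h.set.pr
  have hcg : ∀ u, u ∉ Z → (p : ℤ) ∣ (if (p : ℤ) ∣ n u - n u₀ then (1 : ℤ) else -1) * n u - n u₀ := by
    intro u hu
    split_ifs with h1
    · rw [one_mul]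
      exact h1
    · rcases LEP_dvd hLNU hLCO h hu hu₀ with h2 | h2
      · exact absurd h2 h1
      · have h3 : -1 * n u - n u₀ = -(n u + n u₀) := by ring
        rw [h3]
        exact (dvd_neg).2 h2
  refine ⟨n u₀, fun u => if (p : ℤ) ∣ n u - n u₀ then 1 else -1, ?_⟩
  refine ⟨h.h3b u₀ hu₀, ?_, hcg, ?_, ?_, ?_⟩
  · intro u
    split_ifs
    · exact Or.inl rfl
    · exact Or.inr rfl
  · intro t ht u hu
    rw [h.h3c t ht u hu]
  · intro s hs u hu
    rw [h.h3d s hs u hu]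
  · intro z hz u hu
    have hzu : z * u ∉ Z := fun h' => hu ((Z.mul_mem_cancel_left hz).1 h')
    have h1 := hcg u hu
    have h2 := hcg (z * u) hzu
    set a : ℤ := (if (p : ℤ) ∣ n u - n u₀ then (1 : ℤ) else -1) with ha
    set b : ℤ := (if (p : ℤ) ∣ n (z * u) - n u₀ then (1 : ℤ) else -1) with hb
    have ha2 : a ^ 2 = 1 := by
      rw [ha]
      split_ifs <;> norm_num
    have hb2 : b ^ 2 = 1 := by
      rw [hb]
      split_ifs <;> norm_num
    have h3 : (b * n (z * u)) ^ 2 = (a * n u) ^ 2 := by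
      rw [mul_pow, mul_pow, ha2, hb2, LEP_zu h hz hu]
    rcases sq_eq_sq_iff_eq_or_eq_neg.1 h3 with h4 | h4
    · exact h4
    · exfalso
      rw [h4] at h2
      have h5 : (p : ℤ) ∣ 2 * n u₀ := by
        have h6 := dvd_add h1 h2
        have h7 : a * n u - n u₀ + (-(a * n u) - n u₀) = -(2 * n u₀) := by ring
        rw [h7] at h6
        exact (dvd_neg).1 h6
      rcases hp.dvd_or_dvd h5 with h6 | h6
      · have h7 : p ∣ 2 := by exact_mod_cast h6
        exact h.odd ((Nat.prime_dvd_prime_iff_eq h.set.pr Nat.prime_two).1 h7)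
      · exact h.h3b u₀ hu₀ h6

end Pool.Agent.FI
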